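import Pool.Agent.H97.ST.Targets

/-! Module HH of MP_57ddd5_pr: the strengths. -/

namespace Pool.Agent.H42.E7

open Pool.Agent.H97.ST Pool.Agent.H99.NS Pool.Agent.H22.LPP Pool.Agent.H97.NF

theorem hh_pow (c' : ℝ) (n₀ s k i : ℕ) :
    (16 : ℝ) ^ (40 * hh c' n₀ s k i) ≤ 16 ^ (40 * n₀) * 4 ^ (k - i) := by
  have h1 : hh c' n₀ s k i ≤ n₀ + (k - s - i) / 80 := min_le_left _ _
  have h2 : 40 * hh c' n₀ s k i ≤ 40 * n₀ + (k - i) / 2 := by omega
  calc (16 : ℝ) ^ (40 * hh c' n₀ s k i) ≤ 16 ^ (40 * n₀ + (k - i) / 2) :=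
        pow_le_pow_right₀ (by norm_num) h2
    _ = 16 ^ (40 * n₀) * 4 ^ (2 * ((k - i) / 2)) := by
        rw [pow_add, pow_mul (4 : ℝ) 2]; norm_num
    _ ≤ 16 ^ (40 * n₀) * 4 ^ (k - i) := by
        apply mul_le_mul_of_nonneg_left _ (by positivity)
        exact pow_le_pow_right₀ (by norm_num) (by omega)

theorem pf_HH : T_HH := by
  intro c' n₀ s k hc' hc1 hn hk
  have hfl : (⌊c' * k⌋₊ : ℝ) ≤ c' * k := Nat.floor_le (by positivity)
  refine ⟨?_, ?_, ?_, ?_⟩
  · intro i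
    have hle : (hh c' n₀ s k i : ℝ) ≤ c' * k := by
      have : hh c' n₀ s k i ≤ ⌊c' * k⌋₊ := min_le_right _ _
      have : (hh c' n₀ s k i : ℝ) ≤ ⌊c' * k⌋₊ := by exact_mod_cast this
      linarith
    refine ⟨le_min (by omega) hk, hle, ?_, ?_, ?_⟩
    · have : (hh c' n₀ s k i : ℝ) ≤ k := by
        have h0 : (0 : ℝ) ≤ k := by positivity
        nlinarith
      exact_mod_cast this
    · unfold hh
      exact min_le_min (by omega) le_rfl
    · have h1 : hh c' n₀ s k i ≤ hh c' n₀ s k (i + 1) + 1 := by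
        unfold hh
        omega
      unfold Rm
      have h2 : (2 : ℤ) ^ hh c' n₀ s k i ≤ 2 ^ (hh c' n₀ s k (i + 1) + 1) :=
        pow_le_pow_right₀ (by norm_num) h1
      have hp : (0 : ℤ) < 16 ^ i := by positivity
      have hp2 : (0 : ℤ) < 2 ^ hh c' n₀ s k (i + 1) := by positivity
      calc (8 : ℤ) * 2 ^ hh c' n₀ s k i * 16 ^ i
          ≤ 8 * 2 ^ (hh c' n₀ s k (i + 1) + 1) * 16 ^ i := by
            apply mul_le_mul_of_nonneg_right _ hp.le
            linarith
        _ = 2 * (8 * 2 ^ hh c' n₀ s k (i + 1) * 16 ^ i) := by ring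
        _ ≤ 16 * (8 * 2 ^ hh c' n₀ s k (i + 1) * 16 ^ i) := by
            have : (0 : ℤ) ≤ 8 * 2 ^ hh c' n₀ s k (i + 1) * 16 ^ i := by positivity
            linarith
        _ = 8 * 2 ^ hh c' n₀ s k (i + 1) * 16 ^ (i + 1) := by ring
  · have : hh c' n₀ s k (k - s) ≤ n₀ + (k - s - (k - s)) / 80 := min_le_left _ _
    omega
  · intro r hr0 hr i hi
    have h1 := hh_pow c' n₀ s k i
    calc r * 64 ^ i * 16 ^ (40 * hh c' n₀ s k i)
        ≤ ((1 / 16) ^ (40 * n₀) * (1 / 4) ^ k) * 64 ^ i * (16 ^ (40 * n₀) * 4 ^ (k - i)) := by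
          apply mul_le_mul _ h1 (by positivity) (by positivity)
          exact mul_le_mul_of_nonneg_right hr (by positivity)
      _ = 16 ^ i := by
          obtain ⟨m, rfl⟩ := Nat.exists_eq_add_of_le hi
          have e : i + m - i = m := by omega
          rw [e, pow_add, one_div, one_div, inv_pow, inv_pow, inv_pow]
          have : (64 : ℝ) ^ i = 16 ^ i * 4 ^ i := by rw [← mul_pow]; norm_num
          rw [this]
          field_simp
  · intro r hr0 hr
    have h0 : hh c' n₀ s k (k - s) ≤ n₀ := by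
      have : hh c' n₀ s k (k - s) ≤ n₀ + (k - s - (k - s)) / 80 := min_le_left _ _
      omega
    have h1 : (16 : ℝ) ^ (40 * hh c' n₀ s k (k - s)) ≤ 16 ^ (40 * n₀) :=
      pow_le_pow_right₀ (by norm_num) (by omega)
    calc r * 64 ^ k * 16 ^ (40 * hh c' n₀ s k (k - s))
        ≤ ((1 / 16) ^ (40 * n₀) * (1 / 4) ^ k) * 64 ^ k * 16 ^ (40 * n₀) := by
          apply mul_le_mul _ h1 (by positivity) (by positivity)
          exact mul_le_mul_of_nonneg_right hr (by positivity)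
      _ = 16 ^ k := by
          have : (64 : ℝ) ^ k = 16 ^ k * 4 ^ k := by rw [← mul_pow]; norm_num
          rw [this, one_div, one_div, inv_pow, inv_pow]
          field_simp

end Pool.Agent.H42.E7
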