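import Pool.Agent.H97.ST.Targets

/-! Module WIN of MP_57ddd5_pr: windows and boxes. -/

namespace Pool.Agent.H42.E7

open Pool.Agent.H97.ST Pool.Agent.H99.NS Pool.Agent.H22.LPP Pool.Agent.H97.NF

theorem mem_win (i : ℕ) (x m : ℤ) : x ∈ Win i m ↔ m = x / 16 ^ i := by
  have hp : (0 : ℤ) < 16 ^ i := by positivity
  show (m * 16 ^ i ≤ x ∧ x < (m + 1) * 16 ^ i) ↔ _
  constructor
  · rintro ⟨h1, h2⟩
    apply le_antisymm
    · exact (Int.le_ediv_iff_mul_le hp).2 h1
    · have := (Int.ediv_lt_iff_lt_mul hp).2 h2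
      omega
  · intro h
    subst h
    refine ⟨Int.ediv_mul_le _ hp.ne', ?_⟩
    exact Int.lt_ediv_add_one_mul_self x hp

theorem pf_WIN : T_WIN := by
  refine ⟨mem_win, ?_, ?_, ?_, ?_⟩
  · intro i x
    rw [Int.ediv_ediv_of_nonneg (by positivity), pow_succ]
  · intro j i m R R' hR s hs
    obtain ⟨h1, h2, h3⟩ := hs
    exact ⟨h1, by linarith, by linarith⟩
  · intro j i m R R' hR s hs
    obtain ⟨h1, h2, h3⟩ := hs
    have hp : (0 : ℤ) < 16 ^ i := by positivity
    have hm1 : 16 * (m / 16) ≤ m := by omega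
    have hm2 : m + 1 ≤ 16 * (m / 16 + 1) := by omega
    refine ⟨?_, ?_, ?_⟩
    · have : (64 : ℤ) ^ i ≤ 64 ^ (i + 1) := pow_le_pow_right₀ (by norm_num) (by omega)
      linarith
    · have h4 : m / 16 * 16 ^ (i + 1) = 16 * (m / 16) * 16 ^ i := by ring
      rw [h4]
      have := mul_le_mul_of_nonneg_right hm1 hp.le
      linarith
    · have h4 : (m / 16 + 1) * 16 ^ (i + 1) = 16 * (m / 16 + 1) * 16 ^ i := by ring
      rw [h4]
      have := mul_le_mul_of_nonneg_right hm2 hp.le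
      linarith
  · intro j i m R hR
    set h : ℤ := 64 ^ i / 2 with hh
    have hh2 : 2 * h ≤ 64 ^ i := by omega
    have hh3 : (64 : ℤ) ^ i < 2 * h + 2 := by omega
    have hh0 : 0 ≤ h := by positivity
    refine ⟨(Finset.Icc (j - h) (j + h)) ×ˢ
      (Finset.Ico (m * 16 ^ i - R) ((m + 1) * 16 ^ i + R)), ?_, ?_⟩
    · ext s
      simp only [Finset.coe_product, Set.mem_prod, Finset.coe_Icc, Finset.coe_Ico, Set.mem_Icc,
        Set.mem_Ico]
      constructor
      · rintro ⟨⟨h1, h2⟩, h3, h4⟩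
        refine ⟨?_, h3, h4⟩
        have : |s.1 - j| ≤ h := abs_le.2 ⟨by linarith, by linarith⟩
        linarith
      · rintro ⟨h1, h3, h4⟩
        have h5 : |s.1 - j| ≤ h := by omega
        have h6 := abs_le.1 h5
        exact ⟨⟨by linarith, by linarith⟩, h3, h4⟩
    · rw [Finset.card_product, Int.card_Icc, Int.card_Ico]
      have hp : (0 : ℤ) < 16 ^ i := by positivity
      have e1 : ((j + h + 1 - (j - h)).toNat : ℤ) = 2 * h + 1 := by
        rw [Int.toNat_of_nonneg (by linarith)]; ring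
      have e2 : ((((m + 1) * 16 ^ i + R - (m * 16 ^ i - R)).toNat : ℕ) : ℤ) = 16 ^ i + 2 * R := by
        rw [Int.toNat_of_nonneg (by nlinarith)]; ring
      have e1' : ((j + h + 1 - (j - h)).toNat : ℝ) = 2 * h + 1 := by exact_mod_cast e1
      have e2' : ((((m + 1) * 16 ^ i + R - (m * 16 ^ i - R)).toNat : ℕ) : ℝ) = 16 ^ i + 2 * R := by
        exact_mod_cast e2
      push_cast
      rw [e1', e2']
      have hb : (2 * (h : ℝ) + 1) ≤ 64 ^ i + 1 := by
        have : (2 * h : ℤ) ≤ 64 ^ i := hh2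
        have : ((2 * h : ℤ) : ℝ) ≤ ((64 ^ i : ℤ) : ℝ) := by exact_mod_cast this
        push_cast at this
        linarith
      have hRr : (0 : ℝ) ≤ R := by exact_mod_cast hR
      exact mul_le_mul_of_nonneg_right hb (by positivity)

end Pool.Agent.H42.E7
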